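import Mathlib

/-!
# Small right inverses of a sum of free elements (step 3 of shared note 818, helper581)

`x_1, ..., x_L` free elements of a group `G`.  `Zop x c = sum_l x_l c` (left convolution by
`Z = sum_l x_l`).  For every `eps > 0` there are `L` and a finitely supported `c : G →₀ ℝ`
with `‖c‖_2^2 < eps` and `‖Z c - 1‖_2^2 < eps`.
-/

namespace H844FG

open Finset

/-- squared 2-norm of a finitely supported real function -/
def nsq {G : Type*} (f : G →₀ ℝ) : ℝ := f.sum fun _ r => r ^ 2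

section words

variable {α : Type*} [Fintype α] [DecidableEq α]

/-- sign of the letter number `n`, counted from the right -/
def sg (n : ℕ) : Bool := decide (n % 2 = 1)

lemma sg_succ (n : ℕ) : sg (n + 1) = !sg n := by
  unfold sg
  rcases Nat.mod_two_eq_zero_or_one n with h | h
  · have h1 : (n + 1) % 2 = 1 := by omega
    simp [h, h1]
  · have h1 : (n + 1) % 2 = 0 := by omega
    simp [h, h1]

/-- the letters which may be put before `w` -/
def okset (n : ℕ) (w : List (α × Bool)) : Finset α :=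
  univ.filter (fun q => w.head? ≠ some (q, !sg n))

/-- reduced alternating words of length `n`, the last letter is an inverse of a generator -/
def A (α : Type*) [Fintype α] [DecidableEq α] : ℕ → Finset (List (α × Bool))
  | 0 => {[]}
  | n + 1 => (A α n).biUnion fun w => (okset n w).image (fun q => (q, sg n) :: w)

lemma sum_A_succ {M : Type*} [AddCommMonoid M] (n : ℕ) (f : List (α × Bool) → M) :
    ∑ w ∈ A α (n + 1), f w = ∑ w ∈ A α n, ∑ q ∈ okset n w, f ((q, sg n) :: w) := by
  rw [A, sum_biUnion]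
  · refine sum_congr rfl fun w _ => ?_
    rw [sum_image]
    intro a _ b _ h
    simpa using h
  · intro w _ w' _ h
    rw [Function.onFun, disjoint_left]
    intro z hz hz'
    simp only [mem_image] at hz hz'
    obtain ⟨q, _, rfl⟩ := hz
    obtain ⟨q', _, h'⟩ := hz'
    simp only [List.cons.injEq] at h'
    exact h h'.2.symm

lemma mem_A_succ {n : ℕ} {w : List (α × Bool)} :
    w ∈ A α (n + 1) ↔ ∃ w' ∈ A α n, ∃ q ∈ okset n w', (q, sg n) :: w' = w := by
  simp [A]

lemma length_A : ∀ (n : ℕ) (w : List (α × Bool)), w ∈ A α n → w.length = n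
  | 0, w, h => by
      simp only [A, mem_singleton] at h
      simp [h]
  | n + 1, w, h => by
      rw [mem_A_succ] at h
      obtain ⟨w', hw', q, _, rfl⟩ := h
      simp [length_A n w' hw']

lemma isReduced_A : ∀ (n : ℕ) (w : List (α × Bool)), w ∈ A α n → FreeGroup.IsReduced w
  | 0, w, h => by
      simp only [A, mem_singleton] at h
      rw [h]
      exact FreeGroup.IsReduced.nil
  | 1, w, h => by
      rw [mem_A_succ] at h
      obtain ⟨w', hw', q, _, rfl⟩ := h
      simp only [A, mem_singleton] at hw'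
      rw [hw']
      exact FreeGroup.IsReduced.singleton
  | n + 2, w, h => by
      rw [mem_A_succ] at h
      obtain ⟨w', hw', q, hq, rfl⟩ := h
      have h1 := isReduced_A (n + 1) w' hw'
      rw [mem_A_succ] at hw'
      obtain ⟨w'', hw'', p, hp, rfl⟩ := hw'
      rw [FreeGroup.isReduced_cons_cons]
      refine ⟨fun hqp => ?_, h1⟩
      exfalso
      simp only [okset, mem_filter, mem_univ, true_and, List.head?_cons] at hq
      apply hq
      simp only at hqp
      rw [hqp, sg_succ, Bool.not_not]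

lemma card_okset_zero : (okset 0 ([] : List (α × Bool))).card = Fintype.card α := by
  simp [okset]

lemma okset_succ (n : ℕ) (p : α) (w : List (α × Bool)) :
    okset (n + 1) ((p, sg n) :: w) = univ.erase p := by
  ext q
  simp only [okset, List.head?_cons, mem_filter, mem_univ, true_and, mem_erase, and_true,
    sg_succ, Bool.not_not, ne_eq, Option.some.injEq, Prod.mk.injEq]
  exact ⟨fun h h' => h h'.symm, fun h h' => h h'.symm⟩

lemma card_okset_succ {n : ℕ} {w : List (α × Bool)} (hw : w ∈ A α (n + 1)) :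
    ((okset (n + 1) w).card : ℝ) = Fintype.card α - 1 := by
  rw [mem_A_succ] at hw
  obtain ⟨w', hw', q, hq, rfl⟩ := hw
  rw [okset_succ, card_erase_of_mem (mem_univ q), card_univ]
  have : 1 ≤ Fintype.card α := Fintype.card_pos_iff.2 ⟨q⟩
  push_cast [Nat.cast_sub this]
  ring

lemma card_A_le (n : ℕ) : (A α n).card ≤ Fintype.card α ^ n := by
  induction n with
  | zero => simp [A]
  | succ n ih =>
    rw [A]
    refine (card_biUnion_le).trans ?_
    calc ∑ w ∈ A α n, ((okset n w).image (fun q => (q, sg n) :: w)).card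
        ≤ ∑ w ∈ A α n, Fintype.card α := sum_le_sum fun w _ =>
          (card_image_le).trans ((card_le_univ _).trans le_rfl)
      _ = (A α n).card * Fintype.card α := by rw [sum_const, smul_eq_mul]
      _ ≤ Fintype.card α ^ n * Fintype.card α := Nat.mul_le_mul_right _ ih
      _ = Fintype.card α ^ (n + 1) := by rw [pow_succ]

end words

section group

variable {α : Type*} [Fintype α] [DecidableEq α] {G : Type*} [Group G] (x : α → G)

/-- the element of `G` given by a word -/
def wd (w : List (α × Bool)) : G := FreeGroup.lift x (FreeGroup.mk w)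

lemma wd_nil : wd x [] = 1 := by
  simp [wd]

lemma wd_cons_true (p : α) (w : List (α × Bool)) : wd x ((p, true) :: w) = x p * wd x w := by
  simp [wd]

lemma wd_cons_false (p : α) (w : List (α × Bool)) :
    wd x ((p, false) :: w) = (x p)⁻¹ * wd x w := by
  simp [wd]

lemma wd_inj (hx : Function.Injective (FreeGroup.lift x)) {w w' : List (α × Bool)}
    (h : FreeGroup.IsReduced w) (h' : FreeGroup.IsReduced w') (e : wd x w = wd x w') : w = w' := by
  have h1 : FreeGroup.mk w = FreeGroup.mk w' := hx e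
  have h2 := FreeGroup.reduce.sound h1
  rwa [h.reduce_eq, h'.reduce_eq] at h2

/-- the sum of the alternating words of length `n` -/
noncomputable def Fn (n : ℕ) : G →₀ ℝ := ∑ w ∈ A α n, Finsupp.single (wd x w) 1

/-- left convolution by `Z = ∑ x_p` -/
noncomputable def Zop : (G →₀ ℝ) →ₗ[ℝ] (G →₀ ℝ) :=
  ∑ p, Finsupp.lmapDomain ℝ ℝ (fun g => x p * g)

lemma Zop_apply (c : G →₀ ℝ) : Zop x c = ∑ p, c.mapDomain (fun g => x p * g) := by
  simp [Zop, LinearMap.sum_apply]

lemma Zop_single (g : G) (r : ℝ) :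
    Zop x (Finsupp.single g r) = ∑ p, Finsupp.single (x p * g) r := by
  rw [Zop_apply]
  simp [Finsupp.mapDomain_single]

lemma Zop_Fn (n : ℕ) : Zop x (Fn x (2 * n + 1)) = Fn x (2 * n + 2) +
    ∑ w ∈ A α (2 * n), ((okset (2 * n) w).card : ℝ) • Finsupp.single (wd x w) (1 : ℝ) := by
  have h0 : sg (2 * n) = false := by simp [sg]
  have h1 : sg (2 * n + 1) = true := by rw [sg_succ, h0]; rfl
  rw [Fn, map_sum, sum_A_succ, Fn, sum_A_succ, sum_A_succ, ← sum_add_distrib]
  refine sum_congr rfl fun w _ => ?_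
  have h2 : ((okset (2 * n) w).card : ℝ) • Finsupp.single (wd x w) (1 : ℝ)
      = ∑ q ∈ okset (2 * n) w, Finsupp.single (wd x w) (1 : ℝ) := by
    rw [sum_const, Nat.cast_smul_eq_nsmul]
  rw [h2, ← sum_add_distrib]
  refine sum_congr rfl fun q _ => ?_
  rw [Zop_single, okset_succ, ← Finset.sum_erase_add univ (fun p => Finsupp.single
    (x p * wd x ((q, sg (2 * n)) :: w)) (1 : ℝ)) (mem_univ q), h0, h1]
  rw [wd_cons_false, mul_inv_cancel_left]
  congr 1

lemma Fn_zero : Fn x 0 = Finsupp.single 1 1 := by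
  simp [Fn, A, wd_nil]

lemma Zop_Fn_zero : Zop x (Fn x 1) = Fn x 2 + (Fintype.card α : ℝ) • Finsupp.single 1 1 := by
  have h := Zop_Fn x 0
  simp only [mul_zero, zero_add] at h
  rw [h]
  congr 1
  rw [A, sum_singleton, card_okset_zero, wd_nil]

lemma Zop_Fn_succ (n : ℕ) : Zop x (Fn x (2 * (n + 1) + 1)) = Fn x (2 * (n + 1) + 2) +
    ((Fintype.card α : ℝ) - 1) • Fn x (2 * (n + 1)) := by
  rw [Zop_Fn, Fn, Fn, smul_sum]
  congr 1
  refine sum_congr rfl fun w hw => ?_
  have hw' : w ∈ A α ((2 * n + 1) + 1) := hw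
  have := card_okset_succ hw'
  have h2 : 2 * (n + 1) = (2 * n + 1) + 1 := by ring
  rw [h2, this]

lemma nsq_sum_single {ι : Type*} (s : Finset ι) (φ : ι → G) (hφ : Set.InjOn φ s) (a : ι → ℝ) :
    nsq (∑ i ∈ s, Finsupp.single (φ i) (a i)) = ∑ i ∈ s, a i ^ 2 := by
  classical
  have hsupp : (∑ i ∈ s, Finsupp.single (φ i) (a i)).support ⊆ s.image φ := by
    intro g hg
    by_contra hcon
    apply Finsupp.mem_support_iff.1 hg
    rw [Finsupp.finset_sum_apply]
    refine sum_eq_zero fun i hi => ?_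
    rw [Finsupp.single_apply, if_neg]
    intro h
    exact hcon (mem_image.2 ⟨i, hi, h⟩)
  unfold nsq
  rw [Finsupp.sum_of_support_subset _ hsupp _ (fun _ _ => by norm_num), sum_image hφ]
  refine sum_congr rfl fun i hi => ?_
  congr 1
  rw [Finsupp.finset_sum_apply, sum_eq_single_of_mem i hi]
  · simp
  · intro j hj hji
    rw [Finsupp.single_apply, if_neg]
    intro h
    exact hji (hφ hj hi h)

lemma nsq_comb (hx : Function.Injective (FreeGroup.lift x)) (e : ℕ → ℕ)
    (he : Function.Injective e) (s : Finset ℕ) (b : ℕ → ℝ) :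
    nsq (∑ n ∈ s, b n • Fn x (e n)) = ∑ n ∈ s, b n ^ 2 * (A α (e n)).card := by
  have h1 : ∑ n ∈ s, b n • Fn x (e n)
      = ∑ z ∈ s.sigma (fun n => A α (e n)), Finsupp.single (wd x z.2) (b z.1) := by
    rw [sum_sigma]
    refine sum_congr rfl fun n _ => ?_
    rw [Fn, smul_sum]
    refine sum_congr rfl fun w _ => ?_
    simp
  rw [h1, nsq_sum_single, sum_sigma]
  · refine sum_congr rfl fun n _ => ?_
    simp only [sum_const, nsmul_eq_mul]
    rw [mul_comm]
  · rintro ⟨n, w⟩ hz ⟨m, w'⟩ hz' h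
    simp only [coe_sigma, Set.mem_sigma_iff, mem_coe] at hz hz'
    have h2 := wd_inj x hx (isReduced_A _ _ hz.2) (isReduced_A _ _ hz'.2) h
    have h2 : w = w' := h2
    subst h2
    have h3 := length_A _ _ hz.2
    have h4 := length_A _ _ hz'.2
    have h5 : n = m := he (h3.symm.trans h4)
    subst h5
    rfl

/-- the telescoping identity -/
lemma telescope (a : ℕ → ℝ) (ha : a 0 = 1) (hL : (Fintype.card α : ℝ) ≠ 0) (M : ℕ) :
    ∑ n ∈ range (M + 1), (a n * ((Fintype.card α : ℝ) ^ (n + 1))⁻¹) • Zop x (Fn x (2 * n + 1))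
    = Finsupp.single 1 1
      + ∑ n ∈ range (M + 1), ((a n + a (n + 1) * (1 - (Fintype.card α : ℝ)⁻¹))
          * ((Fintype.card α : ℝ) ^ (n + 1))⁻¹) • Fn x (2 * (n + 1))
      - (a (M + 1) * (1 - (Fintype.card α : ℝ)⁻¹) * ((Fintype.card α : ℝ) ^ (M + 1))⁻¹) •
          Fn x (2 * (M + 1)) := by
  induction M with
  | zero =>
    simp only [zero_add, range_one, sum_singleton, mul_zero, pow_one]
    rw [Zop_Fn_zero, ha, smul_add, smul_smul]
    have : 1 * (Fintype.card α : ℝ)⁻¹ * (Fintype.card α : ℝ) = 1 := by field_simp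
    rw [this]
    module
  | succ M ih =>
    rw [sum_range_succ, ih, Zop_Fn_succ, sum_range_succ _ (M + 1)]
    have h2 : 2 * (M + 1) + 2 = 2 * (M + 1 + 1) := by ring
    rw [h2, smul_add, smul_smul]
    have h3 : a (M + 1) * ((Fintype.card α : ℝ) ^ (M + 1 + 1))⁻¹ * ((Fintype.card α : ℝ) - 1)
        = a (M + 1) * (1 - (Fintype.card α : ℝ)⁻¹) * ((Fintype.card α : ℝ) ^ (M + 1))⁻¹ := by
      rw [pow_succ _ (M + 1), mul_inv]
      field_simp
    rw [h3]
    module

end group

/-- **Small approximate right inverses.** -/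
theorem exists_small {G : Type*} [Group G] (x : ∀ L : ℕ, Fin L → G)
    (hx : ∀ L, Function.Injective (FreeGroup.lift (x L))) {ε : ℝ} (hε : 0 < ε) :
    ∃ (L : ℕ) (c : G →₀ ℝ), nsq c < ε ∧
      nsq (∑ l, c.mapDomain (fun g => x L l * g) - Finsupp.single 1 1) < ε := by
  obtain ⟨N, hN⟩ := exists_nat_gt (4 / ε)
  have hNpos : (0 : ℝ) < N := lt_trans (by positivity) hN
  have hN0 : 0 < N := by exact_mod_cast hNpos
  have hN1 : (1 : ℝ) ≤ N := by exact_mod_cast hN0
  have hNε : 4 / (N : ℝ) < ε := by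
    rw [div_lt_iff₀ hNpos]
    rw [div_lt_iff₀ hε] at hN
    linarith
  set L := N ^ 2 with hL
  have hcard : (Fintype.card (Fin L) : ℝ) = (N : ℝ) ^ 2 := by
    rw [Fintype.card_fin, hL]; push_cast; ring
  have hLpos : (0 : ℝ) < (N : ℝ) ^ 2 := by positivity
  have hL1 : (1 : ℝ) ≤ (N : ℝ) ^ 2 := by nlinarith
  let a : ℕ → ℝ := fun n => (-1) ^ n * (1 - n / N)
  have haN : a N = 0 := by
    simp only [a]
    rw [div_self hNpos.ne', sub_self, mul_zero]
  let c : G →₀ ℝ := ∑ n ∈ range N, (a n * (((N : ℝ) ^ 2) ^ (n + 1))⁻¹) • Fn (x L) (2 * n + 1)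
  have hAcard : ∀ m, ((A (Fin L) m).card : ℝ) ≤ ((N : ℝ) ^ 2) ^ m := by
    intro m
    have := card_A_le (α := Fin L) m
    rw [← hcard]
    exact_mod_cast this
  refine ⟨L, c, ?_, ?_⟩
  · have h1 : nsq c = ∑ n ∈ range N, (a n * (((N : ℝ) ^ 2) ^ (n + 1))⁻¹) ^ 2
        * (A (Fin L) (2 * n + 1)).card :=
      nsq_comb (x L) (hx L) (fun n => 2 * n + 1) (fun i j h => by simpa using h) _ _
    rw [h1]
    have h2 : ∀ n ∈ range N, (a n * (((N : ℝ) ^ 2) ^ (n + 1))⁻¹) ^ 2
        * (A (Fin L) (2 * n + 1)).card ≤ 1 / (N : ℝ) ^ 2 := by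
      intro n hn
      have hn' : (n : ℝ) ≤ N := by
        have := mem_range.1 hn
        exact_mod_cast this.le
      have hq0 : 0 ≤ 1 - (n : ℝ) / N := by
        rw [sub_nonneg, div_le_one hNpos]; exact hn'
      have hq1 : 1 - (n : ℝ) / N ≤ 1 := by
        have : 0 ≤ (n : ℝ) / N := by positivity
        linarith
      have ha2 : a n ^ 2 ≤ 1 := by
        simp only [a]
        rw [mul_pow, ← pow_mul, mul_comm n 2, pow_mul]
        norm_num
        rw [abs_le]
        constructor <;> linarith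
      rw [mul_pow]
      calc a n ^ 2 * ((((N : ℝ) ^ 2) ^ (n + 1))⁻¹) ^ 2 * (A (Fin L) (2 * n + 1)).card
          ≤ 1 * ((((N : ℝ) ^ 2) ^ (n + 1))⁻¹) ^ 2 * ((N : ℝ) ^ 2) ^ (2 * n + 1) := by
            gcongr
            exact hAcard _
        _ = 1 / (N : ℝ) ^ 2 := by
            field_simp
            ring
    calc ∑ n ∈ range N, (a n * (((N : ℝ) ^ 2) ^ (n + 1))⁻¹) ^ 2
        * (A (Fin L) (2 * n + 1)).card ≤ ∑ n ∈ range N, 1 / (N : ℝ) ^ 2 := sum_le_sum h2
      _ = 1 / N := by
        rw [sum_const, card_range, nsmul_eq_mul]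
        field_simp
      _ ≤ 4 / N := by gcongr; norm_num
      _ < ε := hNε
  · have h0 : ∑ l, c.mapDomain (fun g => x L l * g) - Finsupp.single 1 1
        = ∑ n ∈ range N, ((a n + a (n + 1) * (1 - ((N : ℝ) ^ 2)⁻¹))
          * (((N : ℝ) ^ 2) ^ (n + 1))⁻¹) • Fn (x L) (2 * (n + 1)) := by
      rw [← Zop_apply]
      simp only [c, map_sum, map_smul]
      obtain ⟨M, rfl⟩ : ∃ M, N = M + 1 := ⟨N - 1, by omega⟩
      have ht := telescope (x L) a (by simp [a]) (by rw [hcard]; positivity) M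
      rw [haN] at ht
      simp only [hcard] at ht
      rw [ht]
      module
    rw [h0]
    have h1 := nsq_comb (x L) (hx L) (fun n => 2 * (n + 1)) (fun i j h => by simpa using h)
      (range N) (fun n => (a n + a (n + 1) * (1 - ((N : ℝ) ^ 2)⁻¹))
          * (((N : ℝ) ^ 2) ^ (n + 1))⁻¹)
    rw [h1]
    have h2 : ∀ n ∈ range N, ((a n + a (n + 1) * (1 - ((N : ℝ) ^ 2)⁻¹))
          * (((N : ℝ) ^ 2) ^ (n + 1))⁻¹) ^ 2 * (A (Fin L) (2 * (n + 1))).card
          ≤ 4 / (N : ℝ) ^ 2 := by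
      intro n hn
      have hn' : (n : ℝ) + 1 ≤ N := by
        have := mem_range.1 hn
        exact_mod_cast this
      have hq0 : 0 ≤ 1 - ((n : ℝ) + 1) / N := by
        rw [sub_nonneg, div_le_one hNpos]; exact hn'
      have hq1 : 1 - ((n : ℝ) + 1) / N ≤ 1 := by
        have : 0 ≤ ((n : ℝ) + 1) / N := by positivity
        linarith
      have he : a n + a (n + 1) * (1 - ((N : ℝ) ^ 2)⁻¹)
          = (-1) ^ n * (1 / N + (1 - ((n : ℝ) + 1) / N) / (N : ℝ) ^ 2) := by
        simp only [a]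
        push_cast
        rw [pow_succ]
        field_simp
        ring
      have hb0 : 0 ≤ 1 / N + (1 - ((n : ℝ) + 1) / N) / (N : ℝ) ^ 2 := by positivity
      have hb1 : 1 / N + (1 - ((n : ℝ) + 1) / N) / (N : ℝ) ^ 2 ≤ 2 / N := by
        have : (1 - ((n : ℝ) + 1) / N) / (N : ℝ) ^ 2 ≤ 1 / N := by
          rw [div_le_div_iff₀ hLpos hNpos]
          nlinarith
        calc 1 / N + (1 - ((n : ℝ) + 1) / N) / (N : ℝ) ^ 2 ≤ 1 / N + 1 / N := by linarith
          _ = 2 / N := by ring
      have he2 : (a n + a (n + 1) * (1 - ((N : ℝ) ^ 2)⁻¹)) ^ 2 ≤ 4 / (N : ℝ) ^ 2 := by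
        rw [he, mul_pow, ← pow_mul, mul_comm n 2, pow_mul]
        have h4 : (4 : ℝ) / (N : ℝ) ^ 2 = (2 / N) ^ 2 := by ring
        rw [h4]
        have h5 : ((-1 : ℝ) ^ 2) ^ n = 1 := by norm_num
        rw [h5, one_mul]
        exact pow_le_pow_left₀ hb0 hb1 2
      rw [mul_pow]
      calc (a n + a (n + 1) * (1 - ((N : ℝ) ^ 2)⁻¹)) ^ 2 * ((((N : ℝ) ^ 2) ^ (n + 1))⁻¹) ^ 2
            * (A (Fin L) (2 * (n + 1))).card
          ≤ (4 / (N : ℝ) ^ 2) * ((((N : ℝ) ^ 2) ^ (n + 1))⁻¹) ^ 2
            * ((N : ℝ) ^ 2) ^ (2 * (n + 1)) := by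
            gcongr
            exact hAcard _
        _ = 4 / (N : ℝ) ^ 2 := by
            field_simp
            ring
    calc _ ≤ ∑ n ∈ range N, 4 / (N : ℝ) ^ 2 := sum_le_sum h2
      _ = 4 / N := by
        rw [sum_const, card_range, nsmul_eq_mul]
        field_simp
      _ < ε := hNε

end H844FG
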