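import Mathlib

/-!
# The prefixes of `g = prod_l (a^l b a^-l u)` are free (step 2 of shared note 818, helper581)
-/

namespace H844FG

/-- the prefixes `prod_(i<n) (a^i b a^-i u)` -/
def pre {H : Type*} [Group H] (a b u : H) : ℕ → H
  | 0 => 1
  | n + 1 => pre a b u n * (a ^ n * b * (a ^ n)⁻¹ * u)

lemma pre_zero {H : Type*} [Group H] (a b u : H) : pre a b u 0 = 1 := rfl

lemma pre_succ {H : Type*} [Group H] (a b u : H) (n : ℕ) :
    pre a b u (n + 1) = pre a b u n * (a ^ n * b * (a ^ n)⁻¹ * u) := rfl

lemma map_pre {H K : Type*} [Group H] [Group K] (f : H →* K) (a b u : H) (n : ℕ) :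
    f (pre a b u n) = pre (f a) (f b) (f u) n := by
  induction n with
  | zero => simp [pre]
  | succ n ih => simp [pre, ih]

/-- the shift automorphism of the free group on `ℤ` -/
def sh : MulAut (FreeGroup ℤ) := FreeGroup.freeGroupCongr (Equiv.addRight (1 : ℤ))

lemma sh_pow (n : ℕ) : (sh ^ n) (FreeGroup.of 0) = FreeGroup.of (n : ℤ) := by
  induction n with
  | zero => simp
  | succ n ih =>
    rw [pow_succ', MulAut.mul_apply, ih]
    simp [sh]

/-- the action of `ℤ` by shifts -/
def shHom : Multiplicative ℤ →* MulAut (FreeGroup ℤ) := zpowersHom _ sh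

abbrev SG := FreeGroup ℤ ⋊[shHom] Multiplicative ℤ

def sa : SG := SemidirectProduct.inr (Multiplicative.ofAdd 1)

def sb : SG := SemidirectProduct.inl (FreeGroup.of 0)

lemma conj_sb (n : ℕ) : sa ^ n * sb * (sa ^ n)⁻¹ = SemidirectProduct.inl (FreeGroup.of (n : ℤ)) := by
  have h1 : sa ^ n = SemidirectProduct.inr (Multiplicative.ofAdd (n : ℤ)) := by
    rw [sa, ← map_pow]
    congr 1
    rw [← ofAdd_nsmul]
    simp
  rw [h1, ← map_inv, sb, ← SemidirectProduct.inl_aut]
  congr 1
  rw [← sh_pow]
  simp [shHom]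

/-- products `b_0 ... b_(n-1)` in the free group on `ℤ` -/
def bp : ℕ → FreeGroup ℤ
  | 0 => 1
  | n + 1 => bp n * FreeGroup.of (n : ℤ)

lemma pre_SG (n : ℕ) : pre sa sb 1 n = SemidirectProduct.inl (bp n) := by
  induction n with
  | zero => simp [pre, bp]
  | succ n ih => rw [pre, ih, conj_sb, mul_one, bp, map_mul]

/-- images for the left inverse -/
def EE (L : ℕ) (i : ℤ) : FreeGroup (Fin L) :=
  if h : 0 ≤ i ∧ i < L then FreeGroup.of ⟨i.toNat, by omega⟩ else 1

/-- the left inverse -/
def linv (L : ℕ) : FreeGroup ℤ →* FreeGroup (Fin L) :=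
  FreeGroup.lift (fun i => (EE L (i - 1))⁻¹ * EE L i)

lemma linv_bp (L n : ℕ) : linv L (bp n) = EE L ((n : ℤ) - 1) := by
  induction n with
  | zero => simp [bp, EE]
  | succ n ih =>
    rw [bp, map_mul, ih, linv, FreeGroup.lift_apply_of]
    push_cast
    rw [mul_inv_cancel_left]
    congr 1
    ring

lemma linv_bp_succ (L : ℕ) (l : Fin L) : linv L (bp (l + 1)) = FreeGroup.of l := by
  rw [linv_bp, EE, dif_pos]
  · congr 1
    ext
    simp
  · constructor
    · push_cast; omega
    · push_cast
      have := l.2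
      omega

lemma lift_bp_injective (L : ℕ) :
    Function.Injective (FreeGroup.lift (fun l : Fin L => bp (l + 1))) := by
  have h : (linv L).comp (FreeGroup.lift (fun l : Fin L => bp (l + 1))) = MonoidHom.id _ := by
    ext l
    simp [linv_bp_succ]
  intro v w hvw
  have h1 := DFunLike.congr_fun h v
  have h2 := DFunLike.congr_fun h w
  simp only [MonoidHom.comp_apply, MonoidHom.id_apply] at h1 h2
  rw [← h1, ← h2, hvw]

/-- general form: it is enough to have a homomorphism to `SG` with `a ↦ sa`, `b ↦ sb`, `u ↦ 1` -/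
theorem lift_pre_injective_of_hom {H : Type*} [Group H] (a b u : H) (f : H →* SG)
    (ha : f a = sa) (hb : f b = sb) (hu : f u = 1) (L : ℕ) :
    Function.Injective (FreeGroup.lift (fun l : Fin L => pre a b u (l + 1))) := by
  have h : f.comp (FreeGroup.lift (fun l : Fin L => pre a b u (l + 1)))
      = (SemidirectProduct.inl : FreeGroup ℤ →* SG).comp
        (FreeGroup.lift (fun l : Fin L => bp (l + 1))) := by
    ext1 l
    simp only [MonoidHom.comp_apply, FreeGroup.lift_apply_of]
    rw [map_pre, ha, hb, hu, pre_SG]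
  intro v w hvw
  have h1 := DFunLike.congr_fun h v
  have h2 := DFunLike.congr_fun h w
  simp only [MonoidHom.comp_apply] at h1 h2
  rw [hvw, h2] at h1
  exact (lift_bp_injective L (SemidirectProduct.inl_injective h1)).symm

/-- **The prefixes are free.** -/
theorem lift_pre_injective {X : Type*} (a b u : X) (hab : a ≠ b) (hau : a ≠ u) (hbu : b ≠ u)
    (L : ℕ) : Function.Injective (FreeGroup.lift (fun l : Fin L =>
      pre (FreeGroup.of a) (FreeGroup.of b) (FreeGroup.of u) (l + 1))) := by
  classical
  apply lift_pre_injective_of_hom _ _ _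
    (FreeGroup.lift (fun x => if x = a then sa else if x = b then sb else 1))
  · simp
  · simp [hab.symm]
  · simp [hau.symm, hbu.symm]

end H844FG
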